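import Pool.Agent.H941.TG.Front

set_option autoImplicit false
set_option linter.unusedSectionVars false

/-! # Local exactness of a polynomial implies the exactness of its initial form -/

namespace Pool.Agent.H941.TG

open MvPolynomial Pool.Agent.Helper748.MC Pool.Agent.H628R4.TP

section Low

variable {σ : Type} [Fintype σ] [DecidableEq σ]

/-- all terms have degree at least `n` -/
def Low (n : ℕ) (p : MvPolynomial σ ℂ) : Prop := ∀ k, k < n → homogeneousComponent k p = 0

theorem low_mul_hc {n m : ℕ} {p q : MvPolynomial σ ℂ} (hp : Low n p) (hq : Low m q) :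
    homogeneousComponent (n + m) (p * q) = homogeneousComponent n p * homogeneousComponent m q := by
  conv_lhs => rw [← sum_homogeneousComponent q, Finset.mul_sum, map_sum]
  rw [Finset.sum_eq_single m]
  · exact hc_mul m n p _ (homogeneousComponent_isHomogeneous m q)
  · intro j _ hj
    rcases lt_or_gt_of_ne hj with h | h
    · rw [hq j h, mul_zero, map_zero]
    · by_cases hjn : n + m < j
      · exact hc_mul_lt j (n + m) hjn p _ (homogeneousComponent_isHomogeneous j q)
      · have h2 : n + m = (n + m - j) + j := by omega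
        rw [h2, hc_mul j _ p _ (homogeneousComponent_isHomogeneous j q), hp _ (by omega), zero_mul]
  · intro h
    have : homogeneousComponent m q = 0 := by
      refine homogeneousComponent_eq_zero _ _ ?_
      have := Finset.mem_range.not.1 h
      omega
    rw [this, mul_zero, map_zero]

theorem low_mul {n m : ℕ} {p q : MvPolynomial σ ℂ} (hp : Low n p) (hq : Low m q) :
    Low (n + m) (p * q) := by
  intro k hk
  conv_lhs => rw [← sum_homogeneousComponent q, Finset.mul_sum, map_sum]
  refine Finset.sum_eq_zero fun j _ => ?_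
  by_cases hj : j < m
  · rw [hq j hj, mul_zero, map_zero]
  · by_cases hjn : k < j
    · exact hc_mul_lt j k hjn p _ (homogeneousComponent_isHomogeneous j q)
    · have h2 : k = (k - j) + j := by omega
      rw [h2, hc_mul j _ p _ (homogeneousComponent_isHomogeneous j q), hp _ (by omega), zero_mul]

theorem low_add {n : ℕ} {p q : MvPolynomial σ ℂ} (hp : Low n p) (hq : Low n q) :
    Low n (p + q) := fun k hk => by rw [map_add, hp k hk, hq k hk, add_zero]

theorem low_zero' (p : MvPolynomial σ ℂ) : Low 0 p := fun k hk => absurd hk (Nat.not_lt_zero k)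

theorem low_mono {n m : ℕ} (h : m ≤ n) {p : MvPolynomial σ ℂ} (hp : Low n p) : Low m p :=
  fun k hk => hp k (lt_of_lt_of_le hk h)

theorem low_pderiv {n : ℕ} {p : MvPolynomial σ ℂ} (hp : Low (n + 1) p) (i : σ) :
    Low n (pderiv i p) := fun k hk => by rw [hc_pderiv, hp _ (by omega), map_zero]

theorem low_hom {n : ℕ} {p : MvPolynomial σ ℂ} (hp : p.IsHomogeneous n) : Low n p := by
  intro k hk
  rw [homogeneousComponent_of_mem hp, if_neg (by omega)]

theorem low_C {n : ℕ} {p : MvPolynomial σ ℂ} (c : ℂ) (hp : Low n p) : Low n (C c * p) := by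
  have := low_mul (low_zero' (C c)) hp
  rwa [zero_add] at this

theorem hc_C {n : ℕ} (c : ℂ) (p : MvPolynomial σ ℂ) :
    homogeneousComponent n (C c * p) = C c * homogeneousComponent n p :=
  homogeneousComponent_C_mul _ _ _

theorem low_pow {d : ℕ} {F : MvPolynomial σ ℂ} (hF : Low d F) (k : ℕ) :
    Low (d * k) (F ^ k) ∧
      homogeneousComponent (d * k) (F ^ k) = homogeneousComponent d F ^ k := by
  induction k with
  | zero =>
    refine ⟨by rw [mul_zero]; exact low_zero' _, ?_⟩
    rw [mul_zero, pow_zero, pow_zero, homogeneousComponent_eq_self (isHomogeneous_one σ ℂ)]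
  | succ k ih =>
    rw [mul_add, mul_one, pow_succ, pow_succ]
    exact ⟨low_mul ih.1 hF, by rw [low_mul_hc ih.1 hF, ih.2]⟩

theorem euler {n : ℕ} {p : MvPolynomial (Fin 3) ℂ} (hp : p.IsHomogeneous n) :
    X 0 * pderiv 0 p + X 1 * pderiv 1 p + X 2 * pderiv 2 p = C (n : ℂ) * p := by
  have h := hp.sum_X_mul_pderiv
  rw [Fin.sum_univ_three] at h
  rw [h, nsmul_eq_mul]
  simp

end Low

section Step

/-- the cross product -/
noncomputable def crs (a b : Fin 3 → MvPolynomial (Fin 3) ℂ) : Fin 3 → MvPolynomial (Fin 3) ℂ :=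
  ![a 1 * b 2 - a 2 * b 1, a 2 * b 0 - a 0 * b 2, a 0 * b 1 - a 1 * b 0]

/-- the rotation -/
noncomputable def crl (b : Fin 3 → MvPolynomial (Fin 3) ℂ) : Fin 3 → MvPolynomial (Fin 3) ℂ :=
  ![pderiv 1 (b 2) - pderiv 2 (b 1), pderiv 2 (b 0) - pderiv 0 (b 2),
    pderiv 0 (b 1) - pderiv 1 (b 0)]

/-- the divergence of `v F ^ t` divided by `F ^ (t - 1)` -/
noncomputable def dvg (F : MvPolynomial (Fin 3) ℂ) (t : ℂ) (v : Fin 3 → MvPolynomial (Fin 3) ℂ) :
    MvPolynomial (Fin 3) ℂ :=
  ∑ i, (F * pderiv i (v i) + C t * pderiv i F * v i)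

/-- the rotation of `W F ^ t` divided by `F ^ (t - 1)` -/
noncomputable def rot (F : MvPolynomial (Fin 3) ℂ) (t : ℂ) (W : Fin 3 → MvPolynomial (Fin 3) ℂ) :
    Fin 3 → MvPolynomial (Fin 3) ℂ :=
  fun i => F * crl W i + C t * crs (fun j => pderiv j F) W i

theorem comm (i j : Fin 3) (p : MvPolynomial (Fin 3) ℂ) :
    pderiv i (pderiv j p) = pderiv j (pderiv i p) := by
  induction p using MvPolynomial.induction_on with
  | C a => simp
  | add p q hp hq => rw [map_add, map_add, map_add, map_add, hp, hq]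
  | mul_X p k hp =>
    have hx : ∀ i j : Fin 3, pderiv i (pderiv j (X k : MvPolynomial (Fin 3) ℂ)) = 0 := by
      intro i j
      by_cases h : k = j
      · subst h; rw [pderiv_X_self, pderiv_one]
      · rw [pderiv_X_of_ne h, map_zero]
    simp only [Derivation.leibniz, smul_eq_mul, map_add, hx, mul_zero, add_zero, hp]
    ring

theorem dvg_rot (F : MvPolynomial (Fin 3) ℂ) (t : ℂ) (W : Fin 3 → MvPolynomial (Fin 3) ℂ) :
    dvg F (t - 1) (rot F t W) = 0 := by
  rw [dvg, Fin.sum_univ_three]
  simp only [rot, crl, crs, Matrix.cons_val_zero, Matrix.cons_val_one, Matrix.cons_val, map_add, map_sub, Derivation.leibniz, pderiv_C, smul_eq_mul, mul_zero,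
    add_zero, C_sub, C_1]
  rw [comm 1 0 F, comm 0 2 F, comm 2 1 F, comm 1 0 (W 2), comm 0 2 (W 1), comm 2 1 (W 0)]
  ring

theorem dvg_mul (F : MvPolynomial (Fin 3) ℂ) (t : ℂ) (v : Fin 3 → MvPolynomial (Fin 3) ℂ) :
    dvg F (t - 1) (fun i => F * v i) = F * dvg F t v := by
  rw [dvg, dvg, Fin.sum_univ_three, Fin.sum_univ_three]
  simp only [Derivation.leibniz, smul_eq_mul, C_sub, C_1]
  ring

theorem dvg_sub (F : MvPolynomial (Fin 3) ℂ) (t c : ℂ) (v w : Fin 3 → MvPolynomial (Fin 3) ℂ) :
    dvg F t (fun i => v i + C c * w i) = dvg F t v + C c * dvg F t w := by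
  rw [dvg, dvg, dvg, Fin.sum_univ_three, Fin.sum_univ_three, Fin.sum_univ_three]
  simp only [map_add, Derivation.leibniz, smul_eq_mul, pderiv_C, mul_zero, add_zero]
  ring

/-- the homogeneous case: `rot G t (V × x) = (n + 2 + t d) G V - x dvg G t V` -/
theorem rot_cross {G : MvPolynomial (Fin 3) ℂ} {d n : ℕ} (hG : G.IsHomogeneous d) (t : ℂ)
    {V : Fin 3 → MvPolynomial (Fin 3) ℂ} (hV : ∀ i, (V i).IsHomogeneous n) (i : Fin 3) :
    rot G t (crs V X) i = C (n + 2 + t * d) * (G * V i) - X i * dvg G t V := by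
  have eG := euler hG
  have e0 := euler (hV 0)
  have e1 := euler (hV 1)
  have e2 := euler (hV 2)
  have hx : ∀ i j : Fin 3, pderiv i (X j : MvPolynomial (Fin 3) ℂ) = if i = j then 1 else 0 := by
    intro i j
    rw [pderiv_X]
    by_cases h : i = j
    · subst h; simp
    · rw [if_neg h, Pi.single_eq_of_ne]
      exact fun h' => h h'.symm
  rw [dvg, Fin.sum_univ_three]
  simp only [C_add, C_mul]
  have h2 : (C 2 : MvPolynomial (Fin 3) ℂ) = 2 := by
    rw [show (2 : ℂ) = ((2 : ℕ) : ℂ) by norm_num, map_natCast]; norm_num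
  rw [h2]
  fin_cases i
  all_goals
    simp only [rot, crl, crs, Matrix.cons_val_zero, Matrix.cons_val_one, Matrix.cons_val, map_sub, Derivation.leibniz, smul_eq_mul, hx, Fin.isValue, Fin.zero_eta,
      Fin.mk_one, Fin.reduceFinMk, Fin.reduceEq, if_true, if_false, mul_one, mul_zero, one_ne_zero,
      zero_ne_one, ite_true, ite_false]
  · linear_combination G * e0 + C t * V 0 * eG
  · linear_combination G * e1 + C t * V 1 * eG
  · linear_combination G * e2 + C t * V 2 * eG

end Step

end Pool.Agent.H941.TG
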