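import Pool.Agent.H941.ST.Form

set_option autoImplicit false
set_option linter.unusedSectionVars false

/-! # The local exactness which follows from a functional equation of any polynomial -/

namespace Pool.Agent.H941.TG

open MvPolynomial Pool.Agent.Helper748.MC Pool.Agent.H628R4.TP Pool.Agent.W574.HS

variable {σ : Type} [Fintype σ] [DecidableEq σ]

/-- `u F ^ s` with `u(0) ≠ 0` is the divergence of a vector field `v F ^ (s - K)` -/
def Loc (F : MvPolynomial σ ℂ) (s : ℂ) : Prop :=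
  ∃ (K : ℕ) (u : MvPolynomial σ ℂ) (v : σ → MvPolynomial σ ℂ), constantCoeff u ≠ 0 ∧
    u * F ^ (K + 1) = ∑ i, (F * pderiv i (v i) + C (s - K) * pderiv i F * v i)

theorem pf_eval (r : Polynomial (MvPolynomial σ ℂ)) :
    PolyFam (fun c : ℂ => r.eval (C (c + 1))) := by
  refine ⟨r.comp (Polynomial.X + 1), fun c => ?_⟩
  beta_reduce
  rw [Polynomial.eval_comp, Polynomial.eval_add, Polynomial.eval_X, Polynomial.eval_one, C_add,
    C_1]

theorem pf_pow (m : ℕ) : PolyFam (σ := σ) (fun c : ℂ => C (c ^ m)) := by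
  refine pf_congr (pf_poly (Polynomial.X ^ m)) fun c => ?_
  rw [Polynomial.eval_pow, Polynomial.eval_X]

theorem loc_of_eq {F : MvPolynomial σ ℂ} (hF : F ≠ 0) (hF0 : constantCoeff F = 0)
    {b : Polynomial ℂ} {H : MvPolynomial σ ℂ} {P : ℕ →₀ weylS σ} (hH : constantCoeff H ≠ 0)
    (hP : ∀ s : ℕ, H * (C (b.eval (s : ℂ)) * F ^ s) =
      P.sum fun m Q => ((s : ℂ) ^ m) • (Q : Module.End ℂ (MvPolynomial σ ℂ)) (F ^ (s + 1)))
    {s : ℂ} (hs : b.eval s ≠ 0) : Loc F s := by
  classical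
  choose A R hA hAR using fun m : ℕ => dec_weyl (P m : Module.End ℂ (MvPolynomial σ ℂ)) (P m).2
  have h1 : ∀ m i, Seq F fun n => A m i (F ^ n) := fun m i =>
    act_pow F (A m i) (hA m i) _ ⟨0, 1, fun n => by simp⟩
  choose k r hr using h1
  set K := ∑ m ∈ P.support, ∑ i, k m i with hK
  have hkK : ∀ m ∈ P.support, ∀ i, k m i ≤ K := fun m hm i =>
    le_trans (Finset.single_le_sum (f := fun i => k m i) (fun _ _ => Nat.zero_le _)
      (Finset.mem_univ i))
      (Finset.single_le_sum (f := fun m => ∑ i, k m i) (fun _ _ => Nat.zero_le _) hm)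
  set v : ℂ → σ → MvPolynomial σ ℂ := fun c i => F * ∑ m ∈ P.support,
    C (c ^ m) * (F ^ (K - k m i) * (r m i).eval (C (c + 1))) with hv
  set R' : ℂ → MvPolynomial σ ℂ := fun c => ∑ m ∈ P.support, C (c ^ m) * R m with hR'
  have hpv : ∀ i, PolyFam (fun c => v c i) := fun i =>
    pf_mul (pf_const F) (pf_sum _ fun m _ => pf_mul (pf_pow m)
      (pf_mul (pf_const _) (pf_eval (r m i))))
  have hpR : PolyFam R' := pf_sum _ fun m _ => pf_mul (pf_pow m) (pf_const _)
  -- the vector field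
  have hw : ∀ (n : ℕ) (i : σ), ∑ m ∈ P.support, (((K + 1 + n : ℕ) : ℂ) ^ m) •
      A m i (F ^ (K + 1 + n + 1)) = v ((K + 1 + n : ℕ) : ℂ) i * F ^ (n + 1) := by
    intro n i
    have h2 : F ^ K ≠ 0 := pow_ne_zero _ hF
    refine mul_left_cancel₀ h2 ?_
    simp only [hv]
    rw [Finset.mul_sum, Finset.mul_sum, Finset.sum_mul, Finset.mul_sum]
    refine Finset.sum_congr rfl fun m hm => ?_
    have h3 := hr m i (K + 1 + n + 1)
    have h4 : F ^ K = F ^ (K - k m i) * F ^ k m i := by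
      rw [← pow_add, Nat.sub_add_cancel (hkK m hm i)]
    have h5 : (((K + 1 + n + 1 : ℕ) : MvPolynomial σ ℂ)) = C (((K + 1 + n : ℕ) : ℂ) + 1) := by
      push_cast
      simp
    rw [h5] at h3
    rw [smul_eq_C_mul]
    calc F ^ K * (C (((K + 1 + n : ℕ) : ℂ) ^ m) * A m i (F ^ (K + 1 + n + 1)))
        = C (((K + 1 + n : ℕ) : ℂ) ^ m) * F ^ (K - k m i) *
          (F ^ k m i * A m i (F ^ (K + 1 + n + 1))) := by rw [h4]; ring
      _ = _ := by
        rw [h3]
        ring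
  have key : ∀ n : ℕ, K + 1 ≤ n → (H * C (b.eval (n : ℂ)) + C (-1) * R' n * F) * F ^ (K + 1) =
      ∑ i, (F * pderiv i (v n i) + C ((n : ℂ) - K) * pderiv i F * v n i) := by
    intro n hn
    obtain ⟨n, rfl⟩ := Nat.exists_eq_add_of_le hn
    have h2 : F ^ n ≠ 0 := pow_ne_zero _ hF
    refine mul_left_cancel₀ h2 ?_
    have h3 := hP (K + 1 + n)
    rw [Finsupp.sum] at h3
    have h4 : ∀ m ∈ P.support, (((K + 1 + n : ℕ) : ℂ) ^ m) •
        (P m : Module.End ℂ (MvPolynomial σ ℂ)) (F ^ (K + 1 + n + 1)) =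
        ∑ i, pderiv i ((((K + 1 + n : ℕ) : ℂ) ^ m) • A m i (F ^ (K + 1 + n + 1))) +
          C (((K + 1 + n : ℕ) : ℂ) ^ m) * R m * F ^ (K + 1 + n + 1) := by
      intro m _
      rw [hAR m, smul_add, Finset.smul_sum, smul_eq_C_mul _ (((K + 1 + n : ℕ) : ℂ) ^ m)]
      congr 1
      · refine Finset.sum_congr rfl fun i _ => ?_
        rw [Derivation.map_smul]
      · ring
    rw [Finset.sum_congr rfl h4, Finset.sum_add_distrib, Finset.sum_comm] at h3
    have h5 : ∀ i, ∑ m ∈ P.support, pderiv i ((((K + 1 + n : ℕ) : ℂ) ^ m) •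
        A m i (F ^ (K + 1 + n + 1))) = F ^ n * (F * pderiv i (v ((K + 1 + n : ℕ) : ℂ) i) +
          C (((K + 1 + n : ℕ) : ℂ) - K) * pderiv i F * v ((K + 1 + n : ℕ) : ℂ) i) := by
      intro i
      rw [← map_sum, hw n i, Derivation.leibniz, Derivation.leibniz_pow]
      simp only [smul_eq_mul, nsmul_eq_mul, Nat.add_sub_cancel]
      have h6 : (C (((K + 1 + n : ℕ) : ℂ) - K) : MvPolynomial σ ℂ) = ((n + 1 : ℕ) :
          MvPolynomial σ ℂ) := by
        rw [← map_natCast (C : ℂ →+* MvPolynomial σ ℂ)]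
        congr 1
        push_cast
        ring
      rw [h6]
      ring
    simp only [h5] at h3
    rw [← Finset.mul_sum] at h3
    have h7 : ∑ m ∈ P.support, C (((K + 1 + n : ℕ) : ℂ) ^ m) * R m * F ^ (K + 1 + n + 1) =
        R' ((K + 1 + n : ℕ) : ℂ) * F ^ (K + 1 + n + 1) := by
      rw [hR', Finset.sum_mul]
    rw [h7] at h3
    have h8 : (C (-1) : MvPolynomial σ ℂ) = -1 := by rw [C_neg, C_1]
    rw [h8]
    have h9 : F ^ (K + 1 + n) = F ^ n * F ^ (K + 1) := by rw [← pow_add]; congr 1; ring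
    have h10 : F ^ (K + 1 + n + 1) = F ^ n * F ^ (K + 1) * F := by rw [← h9]; ring
    rw [h9, h10] at h3
    linear_combination h3
  have hall := pf_eq (F := fun c => (H * C (b.eval c) + C (-1) * R' c * F) * F ^ (K + 1))
    (G := fun c => ∑ i, (F * pderiv i (v c i) + C (c - K) * pderiv i F * v c i))
    (pf_mul (pf_add (pf_mul (pf_const H) (pf_poly b)) (pf_mul (pf_mul (pf_const _) hpR)
      (pf_const F))) (pf_const _)) (by
      refine pf_sum _ fun i _ => pf_add (pf_mul (pf_const F) (pf_pderiv (hpv i) i)) ?_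
      refine pf_mul (pf_mul ?_ (pf_const _)) (hpv i)
      refine pf_congr (pf_poly (σ := σ) (Polynomial.X - Polynomial.C (K : ℂ))) fun c => ?_
      rw [Polynomial.eval_sub, Polynomial.eval_X, Polynomial.eval_C]) (K + 1) key s
  refine ⟨K, _, v s, ?_, hall⟩
  rw [map_add, map_mul, map_mul, hF0, mul_zero, add_zero, constantCoeff_C]
  exact mul_ne_zero hH hs

theorem loc_of_b {F : MvPolynomial σ ℂ} (hF : F ≠ 0) (hF0 : constantCoeff F = 0)
    {b : Polynomial ℂ} (hb : IsBFunction F b ∨ IsLocalBFunction F b) {s : ℂ}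
    (hs : b.eval s ≠ 0) : Loc F s := by
  rcases hb with ⟨P, hP⟩ | hb
  · refine loc_of_eq hF hF0 (H := 1) (P := P) ?_ (fun n => ?_) hs
    · rw [map_one]; exact one_ne_zero
    · rw [one_mul]; exact hP n
  · obtain ⟨H, P, hH, hP⟩ := algebraic_of_local F hF b hb
    exact loc_of_eq hF hF0 hH hP hs

end Pool.Agent.H941.TG
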