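import Pool.Agent.H941.TG.Cone

set_option autoImplicit false
set_option linter.unusedSectionVars false

/-! # The root `-3/d` for all polynomials with a given initial form -/

namespace Pool.Agent.H941.TG

open MvPolynomial Pool.Agent.Helper748.MC Pool.Agent.H628R4.TP

theorem hc_zero (u : MvPolynomial (Fin 3) ℂ) : homogeneousComponent 0 u = C (constantCoeff u) := by
  rw [homogeneousComponent_zero]; rfl

theorem hc_dvg {F : MvPolynomial (Fin 3) ℂ} {d n : ℕ} (hF : Low (d + 1) F) (t : ℂ)
    {v : Fin 3 → MvPolynomial (Fin 3) ℂ} (hv : ∀ i, Low n (v i)) :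
    homogeneousComponent (d + n) (dvg F t v) =
      dvg (homogeneousComponent (d + 1) F) t (fun i => homogeneousComponent n (v i)) := by
  rw [dvg, dvg, map_sum]
  refine Finset.sum_congr rfl fun i _ => ?_
  rw [map_add]
  have h1 : homogeneousComponent (d + n) (F * pderiv i (v i)) =
      homogeneousComponent (d + 1) F * pderiv i (homogeneousComponent n (v i)) := by
    rcases Nat.eq_zero_or_pos n with rfl | hn
    · rw [hc_zero, pderiv_C, mul_zero]
      have := low_mul hF (low_zero' (pderiv i (v i)))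
      exact this _ (by omega)
    · obtain ⟨m, rfl⟩ := Nat.exists_eq_add_of_le' hn
      have h2 : d + (m + 1) = (d + 1) + m := by omega
      rw [h2, low_mul_hc hF (low_pderiv (hv i) i), hc_pderiv]
  have h2 : homogeneousComponent (d + n) (C t * pderiv i F * v i) =
      C t * pderiv i (homogeneousComponent (d + 1) F) * homogeneousComponent n (v i) := by
    rw [low_mul_hc (low_C t (low_pderiv hF i)) (hv i), hc_C, hc_pderiv]
  rw [h1, h2]

theorem crs_hom {a b : Fin 3 → MvPolynomial (Fin 3) ℂ} {n m : ℕ} (ha : ∀ i, (a i).IsHomogeneous n)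
    (hb : ∀ i, (b i).IsHomogeneous m) (i : Fin 3) : (crs a b i).IsHomogeneous (n + m) := by
  have h : ∀ i j k l, (a i * b j - a k * b l).IsHomogeneous (n + m) := fun i j k l =>
    (homogeneousSubmodule _ ℂ _).sub_mem ((ha i).mul (hb j)) ((ha k).mul (hb l))
  fin_cases i <;> exact h _ _ _ _

theorem crl_hom {b : Fin 3 → MvPolynomial (Fin 3) ℂ} {m : ℕ}
    (hb : ∀ i, (b i).IsHomogeneous (m + 1)) (i : Fin 3) : (crl b i).IsHomogeneous m := by
  have h : ∀ i j k l, (pderiv i (b j) - pderiv k (b l)).IsHomogeneous m := fun i j k l =>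
    (homogeneousSubmodule _ ℂ _).sub_mem (by simpa using (hb j).pderiv (i := i))
      (by simpa using (hb l).pderiv (i := k))
  fin_cases i <;> exact h _ _ _ _

theorem low_crs {F : MvPolynomial (Fin 3) ℂ} {d n : ℕ} (hF : Low (d + 1) F)
    {W : Fin 3 → MvPolynomial (Fin 3) ℂ} (hW : ∀ i, (W i).IsHomogeneous (n + 1)) (i : Fin 3) :
    Low (d + 1 + n) (crs (fun j => pderiv j F) W i) ∧
      homogeneousComponent (d + 1 + n) (crs (fun j => pderiv j F) W i) =
        crs (fun j => pderiv j (homogeneousComponent (d + 1) F)) W i := by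
  have e : d + 1 + n = d + (n + 1) := by omega
  have h1 : ∀ j k, Low (d + 1 + n) (pderiv j F * W k) := fun j k => by
    rw [e]; exact low_mul (low_pderiv hF j) (low_hom (hW k))
  have h2 : ∀ j k, homogeneousComponent (d + 1 + n) (pderiv j F * W k) =
      pderiv j (homogeneousComponent (d + 1) F) * W k := fun j k => by
    rw [e, low_mul_hc (low_pderiv hF j) (low_hom (hW k)), hc_pderiv,
      homogeneousComponent_eq_self (hW k)]
  have h3 : ∀ j k l m, Low (d + 1 + n) (pderiv j F * W k - pderiv l F * W m) ∧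
      homogeneousComponent (d + 1 + n) (pderiv j F * W k - pderiv l F * W m) =
        pderiv j (homogeneousComponent (d + 1) F) * W k -
        pderiv l (homogeneousComponent (d + 1) F) * W m := fun j k l m =>
    ⟨fun q hq => by rw [map_sub, h1 j k q hq, h1 l m q hq, sub_zero], by
      rw [map_sub, h2, h2]⟩
  fin_cases i <;> exact h3 _ _ _ _

/-- one step of the reduction of the order of the vector field -/
theorem step {F : MvPolynomial (Fin 3) ℂ} {d : ℕ} (hF : Low (d + 1) F) {s : ℂ}
    (hs : s * (d + 1 : ℕ) = -3) {K n : ℕ} (hn : n < (d + 1) * K + 1) {u : MvPolynomial (Fin 3) ℂ}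
    {v : Fin 3 → MvPolynomial (Fin 3) ℂ} (hv : ∀ i, Low n (v i))
    (h : u * F ^ (K + 1) = dvg F (s - K) v) :
    ∃ v' : Fin 3 → MvPolynomial (Fin 3) ℂ, (∀ i, Low (d + 1 + n + 1) (v' i)) ∧
      u * F ^ (K + 2) = dvg F (s - (K + 1 : ℕ)) v' := by
  set G := homogeneousComponent (d + 1) F with hG
  have hGh : G.IsHomogeneous (d + 1) := homogeneousComponent_isHomogeneous _ _
  set V : Fin 3 → MvPolynomial (Fin 3) ℂ := fun i => homogeneousComponent n (v i) with hV
  have hVh : ∀ i, (V i).IsHomogeneous n := fun i => homogeneousComponent_isHomogeneous _ _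
  have hVd : dvg G (s - K) V = 0 := by
    rw [← hc_dvg hF (s - K) hv, ← h]
    have h1 := low_mul (low_zero' u) (low_pow hF (K + 1)).1
    refine h1 _ ?_
    rw [zero_add, mul_add]
    omega
  set lam : ℂ := n + 2 + (s - K) * (d + 1 : ℕ) with hlam
  have hlam0 : lam ≠ 0 := by
    have h1 : lam = ((n : ℤ) - 1 - K * (d + 1) : ℤ) := by
      rw [hlam, sub_mul, hs]
      push_cast
      ring
    rw [h1]
    intro h0
    have h2 : (n : ℤ) - 1 - K * (d + 1) = 0 := by exact_mod_cast h0
    have h3 : (n : ℤ) < (d + 1) * K + 1 := by exact_mod_cast hn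
    have h4 : (n : ℤ) < K * (d + 1) + 1 := by linarith [mul_comm (K : ℤ) (d + 1)]
    omega
  set W := crs V X with hW
  have hWh : ∀ i, (W i).IsHomogeneous (n + 1) := crs_hom hVh fun i => isHomogeneous_X ℂ i
  refine ⟨fun i => F * v i + C (-lam⁻¹) * rot F (s - K) W i, fun i => ?_, ?_⟩
  · have h1 : Low (d + 1 + n) (F * v i) := low_mul hF (hv i)
    have h2 : Low (d + 1 + n) (F * crl W i) := low_mul hF (low_hom (crl_hom hWh i))
    obtain ⟨h3, h4⟩ := low_crs hF hWh i
    have h5 : Low (d + 1 + n) (rot F (s - K) W i) := low_add h2 (low_C _ h3)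
    intro k hk
    rcases Nat.lt_succ_iff_lt_or_eq.1 hk with hk | rfl
    · exact low_add h1 (low_C _ h5) k hk
    · rw [map_add, hc_C, low_mul_hc hF (hv i)]
      have h6 : homogeneousComponent (d + 1 + n) (rot F (s - K) W i) = rot G (s - K) W i := by
        rw [rot, rot, map_add, hc_C, h4, low_mul_hc hF (low_hom (crl_hom hWh i)),
          homogeneousComponent_eq_self (crl_hom hWh i)]
      rw [h6, hW, rot_cross hGh (s - K) hVh i, hVd]
      have h7 : (C lam⁻¹ * C lam : MvPolynomial (Fin 3) ℂ) = 1 := by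
        rw [← C_mul, inv_mul_cancel₀ hlam0, C_1]
      rw [← hlam, C_neg]
      change G * V i + _ = 0
      linear_combination (-(G * V i)) * h7
  · have h1 : s - (K + 1 : ℕ) = s - K - 1 := by push_cast; ring
    rw [h1, dvg_sub, dvg_mul, dvg_rot, ← h]
    ring

theorem reduce {F : MvPolynomial (Fin 3) ℂ} {d : ℕ} (hF : Low (d + 1) F) {s : ℂ}
    (hs : s * (d + 1 : ℕ) = -3) {u : MvPolynomial (Fin 3) ℂ} : ∀ (m K n : ℕ)
    (_ : n + m = (d + 1) * K + 1) (v : Fin 3 → MvPolynomial (Fin 3) ℂ) (_ : ∀ i, Low n (v i))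
    (_ : u * F ^ (K + 1) = dvg F (s - K) v), ∃ (K' : ℕ) (v' : Fin 3 → MvPolynomial (Fin 3) ℂ),
      (∀ i, Low ((d + 1) * K' + 1) (v' i)) ∧ u * F ^ (K' + 1) = dvg F (s - K') v' := by
  intro m
  induction m with
  | zero =>
    intro K n hn v hv h
    rw [add_zero] at hn
    rw [hn] at hv
    exact ⟨K, v, hv, h⟩
  | succ m ih =>
    intro K n hn v hv h
    obtain ⟨v', hv', h'⟩ := step hF hs (by omega) hv h
    refine ih (K + 1) (d + 1 + n + 1) ?_ v' hv' h'
    rw [mul_add, mul_one]
    omega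

/-- **Local exactness implies the exactness of the initial form.** -/
theorem exact_of_loc {F : MvPolynomial (Fin 3) ℂ} {d : ℕ} (hd : 0 < d) (hF : Low d F)
    (h : Loc F (-3 / d)) : Exact d (homogeneousComponent d F) (-3 / d) := by
  obtain ⟨d, rfl⟩ := Nat.exists_eq_add_of_le' hd
  obtain ⟨K, u, v, hu, h⟩ := h
  have hs : (-3 / (d + 1 : ℕ) : ℂ) * (d + 1 : ℕ) = -3 := by
    have : ((d + 1 : ℕ) : ℂ) ≠ 0 := by exact_mod_cast Nat.succ_ne_zero d
    field_simp
  obtain ⟨K', v', hv', h'⟩ := reduce hF hs ((d + 1) * K + 1) K 0 (by omega) v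
    (fun i => low_zero' _) h
  have h1 := congrArg (homogeneousComponent (d + ((d + 1) * K' + 1))) h'
  rw [hc_dvg hF _ hv'] at h1
  have h2 : d + ((d + 1) * K' + 1) = 0 + (d + 1) * (K' + 1) := by ring
  rw [h2, low_mul_hc (low_zero' u) (low_pow hF (K' + 1)).1, (low_pow hF (K' + 1)).2, hc_zero] at h1
  set G := homogeneousComponent (d + 1) F with hG
  set u0 := constantCoeff u with hu0
  have h3 : (C u0⁻¹ * C u0 : MvPolynomial (Fin 3) ℂ) = 1 := by
    rw [← C_mul, inv_mul_cancel₀ hu, C_1]
  refine ⟨K', fun i => C u0⁻¹ * homogeneousComponent ((d + 1) * K' + 1) (v' i), fun i => ?_, ?_⟩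
  · have := (isHomogeneous_C (Fin 3) u0⁻¹).mul (homogeneousComponent_isHomogeneous
      ((d + 1) * K' + 1) (v' i))
    rwa [zero_add] at this
  · calc G ^ (K' + 1) = C u0⁻¹ * (C u0 * G ^ (K' + 1)) := by rw [← mul_assoc, h3, one_mul]
      _ = _ := by
        rw [h1, dvg, Finset.mul_sum]
        refine Finset.sum_congr rfl fun i _ => ?_
        rw [pderiv_C_mul]
        ring

/-- **The root `-3/d` for all polynomials with an initial form which is not exact.** -/
theorem root_of_cone {F : MvPolynomial (Fin 3) ℂ} {d : ℕ} (hd : 0 < d) (hF : Low d F)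
    (hG : homogeneousComponent d F ≠ 0)
    (hE : ¬ Exact d (homogeneousComponent d F) (-3 / d)) {b : Polynomial ℂ}
    (hb : IsBFunction F b ∨ IsLocalBFunction F b) : b.eval (-3 / d : ℂ) = 0 := by
  by_contra hs
  have hF0 : F ≠ 0 := fun h => hG (by rw [h, map_zero])
  have hc : constantCoeff F = 0 := by
    have := hF 0 hd
    rw [hc_zero] at this
    exact C_eq_zero.1 this
  exact hE (exact_of_loc hd hF (loc_of_b hF0 hc hb hs))

end Pool.Agent.H941.TG
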